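import Mathlib

set_option autoImplicit false

universe u

namespace Pool.Agent.Results.MP_e76a7e_co.NoTopK

open Cardinal Set

/-- The chromatic number of a possibly infinite graph: the least cardinality of a set of
colours which admits a proper vertex colouring. -/
noncomputable def cardChromatic {V : Type u} (G : SimpleGraph V) : Cardinal.{u} :=
  sInf {κ : Cardinal.{u} | ∃ C : Type u, #C = κ ∧ Nonempty (G.Coloring C)}

/-- `G` contains a subdivision of the complete graph on `κ` vertices: there are `κ` distinct
branch vertices `b i`, for any two distinct indices a (finite) path joining the two branch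
vertices, no path contains a branch vertex other than its two ends, and the paths belonging to
different unordered pairs share no vertex except possibly branch vertices. -/
def ContainsSubdivK {V : Type u} (G : SimpleGraph V) (κ : Cardinal.{u}) : Prop :=
  ∃ (ι : Type u) (b : ι → V) (P : ∀ i j : ι, i ≠ j → G.Walk (b i) (b j)),
    #ι = κ ∧ Function.Injective b ∧
    (∀ i j (h : i ≠ j), (P i j h).IsPath) ∧
    (∀ i j (h : i ≠ j) (k : ι), b k ∈ (P i j h).support → k = i ∨ k = j) ∧
    (∀ i j (h : i ≠ j) i' j' (h' : i' ≠ j'), s(i, j) ≠ s(i', j') →
      ∀ v, v ∈ (P i j h).support → v ∈ (P i' j' h').support → v ∈ Set.range b)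

/-- Sanity check: the complete graph on a type contains a subdivision of the complete graph of its
own cardinality (the paths are single edges). -/
theorem sanity_top (V : Type u) : ContainsSubdivK (⊤ : SimpleGraph V) #V := by
  refine ⟨V, id, fun i j h => SimpleGraph.Walk.cons (v := j) (by simpa using h)
    SimpleGraph.Walk.nil, rfl, Function.injective_id, ?_, ?_, ?_⟩
  · intro i j h
    simp [SimpleGraph.Walk.cons_isPath_iff, h]
  · intro i j h k hk
    simpa using hk
  · intro i j h i' j' h' _ v _ _
    exact ⟨v, rfl⟩

section Tree

variable (W A : Type u) [LinearOrder W]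

/-- nodes: a level `l` and an injective function on the elements below `l`, encoded by a total
function which takes the default value from `l` on. -/
structure TNode (a₀ : A) : Type u where
  l : W
  f : W → A
  inj : Set.InjOn f (Set.Iio l)
  triv : ∀ β, l ≤ β → f β = a₀

variable {W A}
variable {a₀ : A}

/-- tree order -/
def Le (p q : TNode W A a₀) : Prop := p.l ≤ q.l ∧ ∀ β, β < p.l → p.f β = q.f β

theorem Le.refl' (p : TNode W A a₀) : Le p p := ⟨le_rfl, fun _ _ => rfl⟩

theorem Le.trans' {p q r : TNode W A a₀} (h1 : Le p q) (h2 : Le q r) : Le p r :=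
  ⟨h1.1.trans h2.1, fun β hβ => (h1.2 β hβ).trans (h2.2 β (hβ.trans_le h1.1))⟩

theorem Le.ext' {p q : TNode W A a₀} (h1 : Le p q) (h2 : p.l = q.l) : p = q := by
  obtain ⟨l, f, inj, triv⟩ := p
  obtain ⟨l', f', inj', triv'⟩ := q
  have h2' : l = l' := h2
  subst h2'
  have : f = f' := by
    funext β
    rcases lt_or_ge β l with h | h
    · exact h1.2 β h
    · rw [triv β h, triv' β h]
  subst this
  rfl

theorem Le.total_of {p q r : TNode W A a₀} (h1 : Le p r) (h2 : Le q r) : Le p q ∨ Le q p := by
  rcases le_total p.l q.l with h | h
  · exact Or.inl ⟨h, fun β hβ => (h1.2 β hβ).trans (h2.2 β (hβ.trans_le h)).symm⟩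
  · exact Or.inr ⟨h, fun β hβ => (h2.2 β hβ).trans (h1.2 β (hβ.trans_le h)).symm⟩

/-- the comparability graph of the tree -/
def TGraph (a₀ : A) : SimpleGraph (TNode W A a₀) where
  Adj p q := p ≠ q ∧ (Le p q ∨ Le q p)
  symm := ⟨fun _ _ h => ⟨h.1.symm, h.2.symm⟩⟩
  loopless := ⟨fun _ h => h.1 rfl⟩

theorem walk_meets {x y : TNode W A a₀} (p : (TGraph a₀).Walk x y) :
    ∃ v ∈ p.support, Le v x ∧ Le v y := by
  induction p with
  | nil => exact ⟨_, by simp, Le.refl' _, Le.refl' _⟩
  | @cons x z y h p ih =>
    obtain ⟨v, hv, hvz, hvy⟩ := ih
    rcases h.2 with hxz | hzx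
    · rcases Le.total_of hvz hxz with h1 | h1
      · exact ⟨v, by simp [hv], h1, hvy⟩
      · exact ⟨x, by simp, Le.refl' _, h1.trans' hvy⟩
    · exact ⟨v, by simp [hv], hvz.trans' hzx, hvy⟩

end Tree

section Main

variable {W A : Type u} [LinearOrder W] [WellFoundedLT W]

/-- cut a function at level `l` -/
noncomputable def cut (a₀ : A) (l : W) (F : W → A) : W → A :=
  open Classical in fun β => if β < l then F β else a₀

open Classical in
noncomputable def node (a₀ : A) (l : W) (F : W → A) (h : Set.InjOn F (Set.Iio l)) :
    TNode W A a₀ where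
  l := l
  f := cut a₀ l F
  inj := by
    intro β hβ γ hγ hbg
    have hβ' : β < l := hβ
    have hγ' : γ < l := hγ
    simp only [cut] at hbg
    rw [if_pos hβ', if_pos hγ'] at hbg
    exact h hβ hγ hbg
  triv := by
    intro β hβ
    simp [cut, not_lt.2 hβ]

open Classical in
/-- the recursion used for the lower bound on the chromatic number -/
noncomputable def recF (a₀ : A) (c : TNode W A a₀ → A) : W → A :=
  WellFounded.fix (C := fun _ => A) (wellFounded_lt (α := W)) (fun l prev =>
    if h : Set.InjOn (fun β => if hβ : β < l then prev β hβ else a₀) (Set.Iio l)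
    then c (node a₀ l (fun β => if hβ : β < l then prev β hβ else a₀) h) else a₀)

open Classical in
theorem recF_eq (a₀ : A) (c : TNode W A a₀ → A) (l : W)
    (h : Set.InjOn (recF a₀ c) (Set.Iio l)) :
    recF a₀ c l = c (node a₀ l (recF a₀ c) h) := by
  have hcut : (fun β => if hβ : β < l then recF a₀ c β else a₀) = cut a₀ l (recF a₀ c) := by
    funext β
    by_cases hβ : β < l <;> simp [cut, hβ]
  have h' : Set.InjOn (cut a₀ l (recF a₀ c)) (Set.Iio l) := by
    intro β hβ γ hγ hbg
    have hβ' : β < l := hβ
    have hγ' : γ < l := hγ
    simp only [cut] at hbg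
    rw [if_pos hβ', if_pos hγ'] at hbg
    exact h hβ hγ hbg
  have e1 : recF a₀ c l = if h : Set.InjOn (fun β => if hβ : β < l then recF a₀ c β else a₀) (Set.Iio l)
    then c (node a₀ l (fun β => if hβ : β < l then recF a₀ c β else a₀) h) else a₀ := by
    conv_lhs => unfold recF
    rw [WellFounded.fix_eq]
    rfl
  rw [e1]
  simp only [hcut]
  rw [dif_pos h']
  congr 1
  unfold node
  congr 1
  funext β
  simp only [cut]
  by_cases hβ : β < l <;> simp [hβ]

theorem recF_inj (a₀ : A) (c : TNode W A a₀ → A)
    (hc : ∀ p q : TNode W A a₀, (TGraph a₀).Adj p q → c p ≠ c q) :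
    Function.Injective (recF a₀ c) := by
  have key : ∀ γ : W, ∀ β, β < γ → recF a₀ c β ≠ recF a₀ c γ := by
    intro γ
    induction γ using WellFoundedLT.induction with
    | ind γ ih =>
      intro β hβ
      have hinj : Set.InjOn (recF a₀ c) (Set.Iio γ) := by
        intro x hx y hy hxy
        rcases lt_trichotomy x y with h | h | h
        · exact absurd hxy (ih y hy x h)
        · exact h
        · exact absurd hxy.symm (ih x hx y h)
      have hinj' : Set.InjOn (recF a₀ c) (Set.Iio β) := hinj.mono (Set.Iio_subset_Iio hβ.le)
      rw [recF_eq a₀ c γ hinj, recF_eq a₀ c β hinj']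
      apply hc
      refine ⟨?_, Or.inl ⟨hβ.le, ?_⟩⟩
      · intro h
        have : β = γ := congrArg TNode.l h
        exact hβ.ne this
      · intro δ hδ
        have hδ' : δ < β := hδ
        simp [node, cut, hδ', hδ'.trans hβ]
  intro x y hxy
  rcases lt_trichotomy x y with h | h | h
  · exact absurd hxy (key y x h)
  · exact h
  · exact absurd hxy.symm (key x y h)

end Main

/-- For every infinite cardinal `a` there is a graph of chromatic number exactly `a⁺` which
contains no subdivision of the complete graph on `a⁺` vertices. -/
theorem result : ∀ a : Cardinal.{u}, ℵ₀ ≤ a → ∃ (V : Type u) (G : SimpleGraph V),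
    cardChromatic G = Order.succ a ∧ ¬ ContainsSubdivK G (Order.succ a) := by
  intro a ha
  let W : Type u := (Order.succ a).ord.ToType
  let A : Type u := a.out
  have hW : #W = Order.succ a := by simp [W]
  have hA : #A = a := by simp [A]
  have hIio : ∀ w : W, #(Set.Iio w) ≤ a := by
    intro w
    have := Cardinal.mk_Iio_lt w (by simp [W])
    rw [hW] at this
    exact Order.lt_succ_iff.1 this
  have hIic : ∀ w : W, #(Set.Iic w) ≤ a := by
    intro w
    have h1 : Set.Iic w = insert w (Set.Iio w) := by rw [Set.Iio_insert]
    rw [h1]
    refine (Cardinal.mk_insert_le).trans ?_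
    exact Cardinal.add_le_of_le ha (hIio w) (Cardinal.one_le_aleph0.trans ha)
  have hAne : Nonempty A := by
    rw [← Cardinal.mk_ne_zero_iff, hA]
    exact (Cardinal.aleph0_pos.trans_le ha).ne'
  obtain ⟨a₀⟩ := hAne
  have noinj : ∀ F : W → A, ¬ Function.Injective F := by
    intro F hF
    have h1 := Cardinal.mk_le_of_injective hF
    rw [hW, hA] at h1
    exact absurd h1 (not_le.2 (Order.lt_succ a))
  have hcol : Nonempty ((TGraph (W := W) a₀).Coloring W) := by
    refine ⟨SimpleGraph.Coloring.mk (fun p => p.l) ?_⟩
    intro p q hpq heq
    rcases hpq.2 with h | h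
    · exact hpq.1 (h.ext' heq)
    · exact hpq.1 (h.ext' heq.symm).symm
  refine ⟨TNode W A a₀, TGraph a₀, ?_, ?_⟩
  · apply le_antisymm
    · exact csInf_le' ⟨W, hW, hcol⟩
    · refine le_csInf ⟨#W, W, rfl, hcol⟩ ?_
      rintro κ ⟨C, rfl, ⟨col⟩⟩
      by_contra hlt
      push Not at hlt
      have h1 : #C ≤ #A := by
        rw [hA]
        exact Order.lt_succ_iff.1 hlt
      obtain ⟨g⟩ := (Cardinal.le_def _ _).1 h1
      exact noinj _ (recF_inj a₀ (fun p => g (col p))
        (fun p q hpq h => col.valid hpq (g.injective h)))
  · rintro ⟨ι, b, P, hι, hb, hpath, hbr, hdisj⟩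
    have hιinf : ℵ₀ ≤ #ι := by
      rw [hι]
      exact ha.trans (Order.le_succ a)
    -- any two branch vertices are comparable
    have hcomp : ∀ i j, i ≠ j → Le (b i) (b j) ∨ Le (b j) (b i) := by
      intro i j hij
      by_contra hcon
      push Not at hcon
      let K : Set ι := {k | k ≠ i ∧ k ≠ j}
      have hmeet : ∀ k : K, ∃ v, (v ∈ (P i k (fun h => k.2.1 h.symm)).support ∨
          v ∈ (P k j k.2.2).support) ∧ Le v (b i) ∧ Le v (b j) := by
        intro k
        obtain ⟨v, hv, h1, h2⟩ := walk_meets
          ((P i k (fun h => k.2.1 h.symm)).append (P k j k.2.2))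
        rw [SimpleGraph.Walk.mem_support_append_iff] at hv
        exact ⟨v, hv, h1, h2⟩
      choose v hv hvi hvj using hmeet
      have hvinj : Function.Injective v := by
        intro k k' hkk
        by_contra hne
        have hne' : (k : ι) ≠ k' := fun h => hne (Subtype.ext h)
        have hk1 := k.2.1
        have hk2 := k.2.2
        have hk1' := k'.2.1
        have hk2' := k'.2.2
        have hrange : v k ∈ Set.range b := by
          have hv' := hv k'
          rw [← hkk] at hv'
          rcases hv k with h | h <;> rcases hv' with h' | h'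
          · refine hdisj _ _ _ _ _ _ ?_ _ h h'
            intro he
            rw [Sym2.eq_iff] at he
            rcases he with he | he
            · exact hne' he.2
            · exact hk1' he.1.symm
          · refine hdisj _ _ _ _ _ _ ?_ _ h h'
            intro he
            rw [Sym2.eq_iff] at he
            rcases he with he | he
            · exact hk1' he.1.symm
            · exact hij he.1
          · refine hdisj _ _ _ _ _ _ ?_ _ h h'
            intro he
            rw [Sym2.eq_iff] at he
            rcases he with he | he
            · exact hk1 he.1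
            · exact hne' he.1
          · refine hdisj _ _ _ _ _ _ ?_ _ h h'
            intro he
            rw [Sym2.eq_iff] at he
            rcases he with he | he
            · exact hne' he.1
            · exact hk2 he.1
        obtain ⟨m, hm⟩ := hrange
        have hmi : m ≠ i := by
          rintro rfl
          exact hcon.1 (hm ▸ hvj k)
        have hmj : m ≠ j := by
          rintro rfl
          exact hcon.2 (hm ▸ hvi k)
        have hmk : m = k := by
          rcases hv k with h | h
          · rw [← hm] at h
            rcases hbr _ _ _ _ h with h1 | h1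
            · exact absurd h1 hmi
            · exact h1
          · rw [← hm] at h
            rcases hbr _ _ _ _ h with h1 | h1
            · exact h1
            · exact absurd h1 hmj
        have hmk' : m = k' := by
          rw [hkk] at hm
          rcases hv k' with h | h
          · rw [← hm] at h
            rcases hbr _ _ _ _ h with h1 | h1
            · exact absurd h1 hmi
            · exact h1
          · rw [← hm] at h
            rcases hbr _ _ _ _ h with h1 | h1
            · exact h1
            · exact absurd h1 hmj
        exact hne' (hmk ▸ hmk')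
      -- the separator is small
      have hS : #K ≤ a := by
        let φ : K → Set.Iic (b i).l := fun k => ⟨(v k).l, (hvi k).1⟩
        have hφ : Function.Injective φ := by
          intro k k' h
          apply hvinj
          have hl : (v k).l = (v k').l := congrArg Subtype.val h
          rcases Le.total_of (hvi k) (hvi k') with h1 | h1
          · exact h1.ext' hl
          · exact (h1.ext' hl.symm).symm
        exact (Cardinal.mk_le_of_injective hφ).trans (hIic _)
      have hKc : #(Kᶜ : Set ι) < ℵ₀ := by
        have : (Kᶜ : Set ι).Finite := by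
          refine (Set.toFinite ({i, j} : Set ι)).subset ?_
          intro k hk
          by_contra hk'
          simp only [Set.mem_insert_iff, Set.mem_singleton_iff, not_or] at hk'
          exact hk hk'
        exact this.lt_aleph0
      have hsum : #ι ≤ a := by
        rw [← Cardinal.mk_sum_compl K]
        exact Cardinal.add_le_of_le ha hS (hKc.le.trans ha)
      rw [hι] at hsum
      exact absurd hsum (not_le.2 (Order.lt_succ a))
    -- the levels of the branch vertices are cofinal
    have hcof : ∀ γ : W, ∃ i, γ < (b i).l := by
      intro γ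
      by_contra hcon
      push Not at hcon
      let φ : ι → Set.Iic γ := fun i => ⟨(b i).l, hcon i⟩
      have hφ : Function.Injective φ := by
        intro i j h
        by_contra hne
        have hl : (b i).l = (b j).l := congrArg Subtype.val h
        rcases hcomp i j hne with h1 | h1
        · exact hne (hb (h1.ext' hl))
        · exact hne (hb (h1.ext' hl.symm)).symm
      have h1 := (Cardinal.mk_le_of_injective hφ).trans (hIic _)
      rw [hι] at h1
      exact absurd h1 (not_le.2 (Order.lt_succ a))
    choose i hi using hcof
    have hval : ∀ γ j, γ < (b j).l → (b j).f γ = (b (i γ)).f γ := by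
      intro γ j hj
      by_cases hne : j = i γ
      · rw [hne]
      · rcases hcomp j (i γ) hne with h1 | h1
        · exact h1.2 γ hj
        · exact (h1.2 γ (hi γ)).symm
    apply noinj (fun γ => (b (i γ)).f γ)
    have hlt : ∀ β γ : W, β < γ → (b (i β)).f β ≠ (b (i γ)).f γ := by
      intro β γ hβγ h
      rw [← hval β (i γ) (hβγ.trans (hi γ))] at h
      exact hβγ.ne ((b (i γ)).inj (hβγ.trans (hi γ)) (hi γ) h)
    intro β γ h
    rcases lt_trichotomy β γ with h1 | h1 | h1
    · exact absurd h (hlt β γ h1)
    · exact h1
    · exact absurd h.symm (hlt γ β h1)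

end Pool.Agent.Results.MP_e76a7e_co.NoTopK
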